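import Mathlib
import Pool.Agent.W5h49.EC.Calc

set_option autoImplicit false

open scoped ContDiff Topology

namespace Pool.Agent.Run7.h572

open Pool.Agent.W5h49.EC

variable {V : Type*} [NormedAddCommGroup V] [NormedSpace ℝ V]

/-- bilinear forms -/
abbrev Bil (V : Type*) [NormedAddCommGroup V] [NormedSpace ℝ V] := V →L[ℝ] V →L[ℝ] ℝ

theorem fd_bil {P : Type*} [NormedAddCommGroup P] [NormedSpace ℝ P] {Ω : P → Bil V} {g h : P → V}
    {p : P} (hΩ : DifferentiableAt ℝ Ω p) (hg : DifferentiableAt ℝ g p)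
    (hh : DifferentiableAt ℝ h p) (a : P) :
    fderiv ℝ (fun q => Ω q (g q) (h q)) p a =
      fderiv ℝ Ω p a (g p) (h p) + Ω p (fderiv ℝ g p a) (h p) + Ω p (g p) (fderiv ℝ h p a) := by
  have h1 := hΩ.hasFDerivAt.clm_apply hg.hasFDerivAt
  have h2 := h1.clm_apply hh.hasFDerivAt
  rw [h2.fderiv]
  simp
  ring

theorem fd_lin {P : Type*} [NormedAddCommGroup P] [NormedSpace ℝ P] {β : P → V →L[ℝ] ℝ}
    {h : P → V} {p : P} (hβ : DifferentiableAt ℝ β p) (hh : DifferentiableAt ℝ h p) (a : P) :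
    fderiv ℝ (fun q => β q (h q)) p a = fderiv ℝ β p a (h p) + β p (fderiv ℝ h p a) := by
  have h1 := hβ.hasFDerivAt.clm_apply hh.hasFDerivAt
  rw [h1.fderiv]
  simp
  ring

theorem diffAt {P F : Type*} [NormedAddCommGroup P] [NormedSpace ℝ P] [NormedAddCommGroup F]
    [NormedSpace ℝ F] {f : P → F} (hf : ContDiff ℝ ∞ f) (p : P) : DifferentiableAt ℝ f p :=
  (hf.differentiable (by simp)) p

/-- the derivative of a composition with a family -/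
theorem fd_comp {F : Type*} [NormedAddCommGroup F] [NormedSpace ℝ F] {Ω : ℝ × V → F}
    {Φ : ℝ × V → V} (hΩ : ContDiff ℝ ∞ Ω) (hΦ : ContDiff ℝ ∞ Φ) (p a : ℝ × V) :
    fderiv ℝ (fun q : ℝ × V => Ω (q.1, Φ q)) p a = fderiv ℝ Ω (p.1, Φ p) (a.1, dd Φ a p) := by
  have h1 : HasFDerivAt (fun q : ℝ × V => (q.1, Φ q))
      ((ContinuousLinearMap.fst ℝ ℝ V).prod (fderiv ℝ Φ p)) p :=
    hasFDerivAt_fst.prodMk (diffAt hΦ p).hasFDerivAt
  have h2 := (diffAt hΩ (p.1, Φ p)).hasFDerivAt.comp p h1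
  have h3 : (Ω ∘ fun q : ℝ × V => (q.1, Φ q)) = fun q : ℝ × V => Ω (q.1, Φ q) := rfl
  rw [← h3, h2.fderiv]
  rfl

/-- a closed family of two-forms -/
def ClosedFam (Ω : ℝ × V → Bil V) : Prop :=
  ∀ (p : ℝ × V) (u v w : V), fderiv ℝ Ω p (iv u) v w - fderiv ℝ Ω p (iv v) u w +
    fderiv ℝ Ω p (iv w) u v = 0

/-- Cartan's formula for a family of maps and a family of closed forms -/
theorem cartan {Ω : ℝ × V → Bil V} (hΩ : ContDiff ℝ ∞ Ω) (hanti : ∀ p u v, Ω p u v = - Ω p v u)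
    (hcl : ClosedFam Ω) {Φ : ℝ × V → V} (hΦ : ContDiff ℝ ∞ Φ) (v w : V) (p : ℝ × V) :
    fderiv ℝ (fun q : ℝ × V => Ω (q.1, Φ q) (dd Φ (iv v) q) (dd Φ (iv w) q)) p (ee V) =
      fderiv ℝ Ω (p.1, Φ p) (ee V) (dd Φ (iv v) p) (dd Φ (iv w) p)
      + fderiv ℝ (fun q : ℝ × V => Ω (q.1, Φ q) (dd Φ (ee V) q) (dd Φ (iv w) q)) p (iv v)
      - fderiv ℝ (fun q : ℝ × V => Ω (q.1, Φ q) (dd Φ (ee V) q) (dd Φ (iv v) q)) p (iv w) := by
  have hc : ContDiff ℝ ∞ (fun q : ℝ × V => Ω (q.1, Φ q)) := hΩ.comp (contDiff_fst.prodMk hΦ)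
  rw [fd_bil (diffAt hc p) (diffAt (dd_smooth hΦ _) p) (diffAt (dd_smooth hΦ _) p),
    fd_bil (diffAt hc p) (diffAt (dd_smooth hΦ _) p) (diffAt (dd_smooth hΦ _) p),
    fd_bil (diffAt hc p) (diffAt (dd_smooth hΦ _) p) (diffAt (dd_smooth hΦ _) p),
    fd_comp hΩ hΦ, fd_comp hΩ hΦ, fd_comp hΩ hΦ]
  have e1 : (((ee V).1, dd Φ (ee V) p) : ℝ × V) = ee V + iv (dd Φ (ee V) p) := by
    simp [ee, iv]
  have e2 : ∀ a : V, (((iv a : ℝ × V).1, dd Φ (iv a) p) : ℝ × V) = iv (dd Φ (iv a) p) := by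
    intro a
    simp [iv]
  rw [e1, e2, e2, map_add]
  have h1 := hcl (p.1, Φ p) (dd Φ (ee V) p) (dd Φ (iv v) p) (dd Φ (iv w) p)
  have d1 := dd_comm hΦ (iv v) (ee V) p
  have d2 := dd_comm hΦ (iv w) (ee V) p
  have d3 := dd_comm hΦ (iv v) (iv w) p
  rw [d1, d2, d3]
  have a1 := hanti (p.1, Φ p) (dd Φ (iv v) p) (fderiv ℝ (dd Φ (ee V)) p (iv w))
  simp only [ContinuousLinearMap.add_apply]
  rw [a1]
  linear_combination h1

/-- a quantity along a line -/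
theorem const_line {F : Type*} [NormedAddCommGroup F] [NormedSpace ℝ F] {Q : ℝ × V → F}
    (hQ : ContDiff ℝ ∞ Q) (x : V) (h : ∀ r, fderiv ℝ Q (r, x) (ee V) = 0) (s : ℝ) :
    Q (s, x) = Q (0, x) := by
  have hline : ∀ r : ℝ, HasDerivAt (fun r : ℝ => ((r, x) : ℝ × V)) (ee V) r := by
    intro r
    have := (hasDerivAt_id r).prodMk (hasDerivAt_const r x)
    exact this
  have hd : ∀ r : ℝ, HasDerivAt (fun r : ℝ => Q (r, x)) 0 r := by
    intro r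
    have h1 := (diffAt hQ (r, x)).hasFDerivAt.comp_hasDerivAt r (hline r)
    rw [h r] at h1
    exact h1
  exact is_const_of_deriv_eq_zero (fun r => (hd r).differentiableAt) (fun r => (hd r).deriv) s 0

end Pool.Agent.Run7.h572
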