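import Mathlib
import Pool.Agent.W5h49.EC.Flow
import Pool.Agent.W5h49.EC.Lin
import Pool.Agent.Run7.h572.Cartan

set_option autoImplicit false

open scoped ContDiff Topology NNReal
open Set

namespace Pool.Agent.Run7.h572

open Pool.Agent.W5h49.EC

section

variable {E : Type} [NormedAddCommGroup E] [NormedSpace ℝ E] [FiniteDimensional ℝ E]

/-- a smooth bijection with injective differentials has a smooth inverse -/
theorem symm_smooth {Φ : E ≃ E} (hΦ : ContDiff ℝ ∞ Φ)
    (hinj : ∀ x v, fderiv ℝ Φ x v = 0 → v = 0) : ContDiff ℝ ∞ Φ.symm := by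
  have : CompleteSpace E := FiniteDimensional.complete ℝ E
  choose e he using fun x => exists_equiv rfl (fderiv ℝ Φ x) (hinj x)
  have hd : ∀ x, HasFDerivAt Φ (e x : E →L[ℝ] E) x := by
    intro x
    rw [he]
    exact (diffAt hΦ x).hasFDerivAt
  have hs : ∀ x, HasStrictFDerivAt Φ (e x : E →L[ℝ] E) x := fun x =>
    (hΦ.contDiffAt (x := x)).hasStrictFDerivAt' (hd x) (by simp)
  have ho : IsOpenMap Φ := isOpenMap_of_hasStrictFDerivAt_equiv hs
  exact (Homeomorph.contDiff_symm (f := Φ.toHomeomorphOfContinuousOpen hΦ.continuous ho) hd hΦ)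

/-- Straightening of a flow without trapped orbits. -/
theorem straighten (c0 : E) (Y : E → E) (hY : ContDiff ℝ ∞ Y) (hYc : HasCompactSupport Y)
    (a : E →L[ℝ] ℝ) (hac : a c0 = 1) (R : ℝ) (hR : ∀ x, a x ≤ -R → Y x = 0)
    (G : ℝ → E → E) (hG : ContDiff ℝ ∞ (fun q : ℝ × E => G q.1 q.2)) (hG0 : ∀ p, G 0 p = p)
    (hGa : ∀ s t p, G (s + t) p = G s (G t p))
    (hGd : ∀ p t, HasDerivAt (fun t => G t p) (c0 + Y (G t p)) t)
    (htrap : ∀ x, ∃ T, 0 ≤ T ∧ a (G (-T) x) ≤ -R) :
    ∃ Φ : E ≃ E, ContDiff ℝ ∞ Φ ∧ ContDiff ℝ ∞ Φ.symm ∧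
      ∀ x, ∃ t : ℝ, a (x - t • c0) < -R ∧ fderiv ℝ Φ x = fderiv ℝ (G t) (x - t • c0) ∧
        Φ x = G t (x - t • c0) := by
  have hGt : ∀ t, ContDiff ℝ ∞ (G t) := fun t => hG.comp (contDiff_const.prodMk contDiff_id)
  obtain ⟨L, hL⟩ := hY.lipschitzWith_of_hasCompactSupport hYc (by simp)
  -- backward motion on the left is linear
  have lin : ∀ z, a z ≤ -R → ∀ t, 0 ≤ t → G (-t) z = z - t • c0 := by
    intro z hz t ht
    have hv : ∀ _s : ℝ, LipschitzWith L (fun y : E => -(c0 + Y y)) := by
      intro _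
      refine LipschitzWith.of_dist_le_mul fun p q => ?_
      rw [dist_neg_neg, dist_add_left]
      exact hL.dist_le_mul p q
    have hf : ∀ s, HasDerivAt (fun s : ℝ => G (-s) z) (-(c0 + Y (G (-s) z))) s := by
      intro s
      have h1 := (hGd z (-s)).scomp s (hasDerivAt_neg s)
      have h2 : (-1 : ℝ) • (c0 + Y (G (-s) z)) = -(c0 + Y (G (-s) z)) := neg_one_smul ℝ _
      rw [h2] at h1
      exact h1
    have hg : ∀ s : ℝ, 0 ≤ s → HasDerivAt (fun s : ℝ => z - s • c0) (-(c0 + Y (z - s • c0))) s := by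
      intro s hs
      have h1 : Y (z - s • c0) = 0 := by
        apply hR
        rw [map_sub, map_smul, hac, smul_eq_mul, mul_one]
        linarith
      rw [h1, add_zero]
      have h2 := ((hasDerivAt_id s).smul_const c0).const_sub z
      simpa using h2
    have h := ODE_solution_unique (v := fun _ y => -(c0 + Y y)) (K := L)
      (f := fun s : ℝ => G (-s) z) (g := fun s : ℝ => z - s • c0) (a := 0) (b := t) hv
      (fun s _ => (hf s).continuousAt.continuousWithinAt)
      (fun s _ => (hf s).hasDerivWithinAt)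
      (fun s hs => (hg s hs.1).continuousAt.continuousWithinAt)
      (fun s hs => (hg s hs.1).hasDerivWithinAt) (by simp [hG0])
    exact h ⟨ht, le_rfl⟩
  have hGinv : ∀ t p, G t (G (-t) p) = p := fun t p => by rw [← hGa, add_neg_cancel, hG0]
  have hGinv' : ∀ t p, G (-t) (G t p) = p := fun t p => by rw [← hGa, neg_add_cancel, hG0]
  have lin2 : ∀ z t, a z ≤ -R → a z + t ≤ -R → G t z = z + t • c0 := by
    intro z t hz hzt
    rcases le_total t 0 with h | h
    · have h1 := lin z hz (-t) (by linarith)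
      rw [neg_neg] at h1
      rw [h1]
      simp
    · have h1 : a (z + t • c0) ≤ -R := by
        rw [map_add, map_smul, hac, smul_eq_mul, mul_one]
        exact hzt
      have h2 := lin (z + t • c0) h1 t h
      rw [add_sub_cancel_right] at h2
      rw [← h2, hGinv, h2]
  set F : E → E := fun x => G (a x + R) (x - (a x + R) • c0) with hF
  have hFs : ContDiff ℝ ∞ F := by
    have h1 : ContDiff ℝ ∞ (fun x : E => a x + R) := a.contDiff.add contDiff_const
    exact hG.comp (h1.prodMk (contDiff_id.sub (h1.smul contDiff_const)))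
  have hF1 : ∀ x t, F (x + t • c0) = G t (F x) := by
    intro x t
    have h1 : a (x + t • c0) = a x + t := by
      rw [map_add, map_smul, hac, smul_eq_mul, mul_one]
    rw [hF]
    simp only [h1]
    rw [← hGa]
    congr 1
    · ring
    · rw [show a x + t + R = t + (a x + R) by ring, add_smul t (a x + R) c0]
      abel
  have hF2 : ∀ x, a x ≤ -R → F x = x := by
    intro x hx
    rw [hF]
    simp only
    rw [lin2]
    · simp
    · rw [map_sub, map_smul, hac, smul_eq_mul, mul_one]
      linarith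
    · rw [map_sub, map_smul, hac, smul_eq_mul, mul_one]
      linarith
  have hsub : ∀ x t, a (x - t • c0) = a x - t := by
    intro x t
    rw [map_sub, map_smul, hac, smul_eq_mul, mul_one]
  have hFG : ∀ x t, a x - t ≤ -R → F x = G t (x - t • c0) := by
    intro x t h
    have h1 := hF1 (x - t • c0) t
    rw [sub_add_cancel, hF2 (x - t • c0) (by rw [hsub]; exact h)] at h1
    exact h1
  have hinj : Function.Injective F := by
    intro x x' h
    set t : ℝ := max (a x) (a x') + R with ht
    have h1 : a x - t ≤ -R := by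
      have := le_max_left (a x) (a x')
      linarith
    have h2 : a x' - t ≤ -R := by
      have := le_max_right (a x) (a x')
      linarith
    have h3 := hFG x t h1
    have h4 := hFG x' t h2
    have h5 : G t (x - t • c0) = G t (x' - t • c0) := by rw [← h3, ← h4, h]
    have h6 : x - t • c0 = x' - t • c0 := by
      rw [← hGinv' t (x - t • c0), h5, hGinv']
    exact sub_left_injective h6
  have hsurj : Function.Surjective F := by
    intro y
    obtain ⟨T, hT, h⟩ := htrap y
    refine ⟨G (-T) y + T • c0, ?_⟩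
    rw [hF1, hF2 _ h, hGinv]
  set Φ : E ≃ E := Equiv.ofBijective F ⟨hinj, hsurj⟩ with hΦ
  have hΦF : (Φ : E → E) = F := rfl
  have key : ∀ x, ∃ t : ℝ, a (x - t • c0) < -R ∧ fderiv ℝ Φ x = fderiv ℝ (G t) (x - t • c0) ∧
      Φ x = G t (x - t • c0) := by
    intro x
    refine ⟨a x + R + 1, ?_, ?_, ?_⟩
    · rw [hsub]
      linarith
    · have h1 : F =ᶠ[𝓝 x] fun y => G (a x + R + 1) (y - (a x + R + 1) • c0) := by
        have h2 : ∀ᶠ y in 𝓝 x, a y < a x + 1 :=
          a.continuous.continuousAt.eventually_lt continuousAt_const (by linarith)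
        filter_upwards [h2] with y hy
        exact hFG y _ (by linarith)
      rw [hΦF, h1.fderiv_eq]
      have h3 : HasFDerivAt (fun y : E => y - (a x + R + 1) • c0) (ContinuousLinearMap.id ℝ E) x :=
        (hasFDerivAt_id x).sub_const _
      have h4 := (diffAt (hGt (a x + R + 1)) (x - (a x + R + 1) • c0)).hasFDerivAt.comp x h3
      have h5 : (G (a x + R + 1) ∘ fun y : E => y - (a x + R + 1) • c0) =
        fun y => G (a x + R + 1) (y - (a x + R + 1) • c0) := rfl
      rw [h5] at h4
      rw [h4.fderiv]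
      simp
    · exact hFG x _ (by linarith)
  have hder : ∀ t z v, fderiv ℝ (G t) z v = 0 → v = 0 := by
    intro t z v hv
    have h1 := (diffAt (hGt (-t)) (G t z)).hasFDerivAt.comp z (diffAt (hGt t) z).hasFDerivAt
    have h2 : (G (-t) ∘ G t) = id := by
      funext p
      exact hGinv' t p
    rw [h2] at h1
    have h3 := h1.unique (hasFDerivAt_id z)
    have h4 := DFunLike.congr_fun h3 v
    simp only [ContinuousLinearMap.comp_apply, hv, map_zero, ContinuousLinearMap.id_apply] at h4
    exact h4.symm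
  refine ⟨Φ, hFs, ?_, key⟩
  refine symm_smooth (hΦF ▸ hFs) ?_
  intro x v hv
  obtain ⟨t, -, h, -⟩ := key x
  rw [h] at hv
  exact hder _ _ _ hv

end

end Pool.Agent.Run7.h572
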