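import Mathlib
import Pool.Agent.Run7.h572.Straight

set_option autoImplicit false

open scoped ContDiff Topology NNReal
open Set

namespace Pool.Agent.Run7.h572

open Pool.Agent.W5h49.EC Pool.Agent.W71.EC

/-- a symplectic form on `ℝ²ⁿ` -/
structure IsSymp {n : ℕ} (om : R2 n → Bil (R2 n)) : Prop where
  smooth : ContDiff ℝ ∞ om
  anti : ∀ x u v, om x u v = - om x v u
  closed : ∀ x u v w, fderiv ℝ om x u v w - fderiv ℝ om x v u w + fderiv ℝ om x w u v = 0
  nondeg : ∀ x v, om x v = 0 → v = 0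

section flowinv

variable {n : ℕ}

/-- the flow of a Hamiltonian vector field preserves the form -/
theorem flow_inv {om : R2 n → Bil (R2 n)} (hom : IsSymp om) {g : R2 n → ℝ} (hg : ContDiff ℝ ∞ g)
    {X : R2 n → R2 n} (hX : ∀ x, om x (X x) = fderiv ℝ g x)
    {G : ℝ → R2 n → R2 n} (hG : ContDiff ℝ ∞ (fun q : ℝ × R2 n => G q.1 q.2))
    (hG0 : ∀ p, G 0 p = p) (hGd : ∀ p t, HasDerivAt (fun t => G t p) (X (G t p)) t)
    (t : ℝ) (x u v : R2 n) :
    om (G t x) (fderiv ℝ (G t) x u) (fderiv ℝ (G t) x v) = om x u v := by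
  set Φ : ℝ × R2 n → R2 n := fun q => G q.1 q.2 with hΦ
  have hline : ∀ (r : ℝ) (x : R2 n),
      HasDerivAt (fun r : ℝ => ((r, x) : ℝ × R2 n)) (ee (R2 n)) r := fun r x =>
    (hasDerivAt_id r).prodMk (hasDerivAt_const r x)
  have hee : ∀ q, dd Φ (ee (R2 n)) q = X (Φ q) := by
    rintro ⟨s, y⟩
    have h1 := (diffAt hG (s, y)).hasFDerivAt.comp_hasDerivAt s (hline s y)
    exact h1.unique (hGd y s)
  have hfd : ∀ s y w, dd Φ (iv w) (s, y) = fderiv ℝ (G s) y w := by
    intro s y w
    have h2 : HasFDerivAt (fun y : R2 n => ((s, y) : ℝ × R2 n))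
        (ContinuousLinearMap.inr ℝ ℝ (R2 n)) y :=
      (hasFDerivAt_const (𝕜 := ℝ) (E := R2 n) s y).prodMk (hasFDerivAt_id (𝕜 := ℝ) (E := R2 n) y)
    have h3 := (diffAt hG (s, y)).hasFDerivAt.comp y h2
    have h4 : (Φ ∘ fun y : R2 n => ((s, y) : ℝ × R2 n)) = G s := rfl
    rw [h4] at h3
    rw [h3.fderiv]
    rfl
  set Ω : ℝ × R2 n → Bil (R2 n) := fun q => om q.2 with hΩ
  have hΩs : ContDiff ℝ ∞ Ω := hom.smooth.comp contDiff_snd
  have hΩd : ∀ (q : ℝ × R2 n) (a : ℝ × R2 n), fderiv ℝ Ω q a = fderiv ℝ om q.2 a.2 := by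
    intro q a
    have h1 := (diffAt hom.smooth q.2).hasFDerivAt.comp q
      (hasFDerivAt_snd (𝕜 := ℝ) (E := ℝ) (F := R2 n) (p := q))
    have h2 : (om ∘ Prod.snd : ℝ × R2 n → Bil (R2 n)) = Ω := rfl
    rw [h2] at h1
    rw [h1.fderiv]
    rfl
  have hcl : ClosedFam Ω := by
    intro p a b c
    rw [hΩd, hΩd, hΩd]
    exact hom.closed p.2 a b c
  have hgΦ : ContDiff ℝ ∞ (fun q : ℝ × R2 n => g (Φ q)) := hg.comp hG
  have hA : ∀ w, (fun q : ℝ × R2 n => Ω (q.1, Φ q) (dd Φ (ee (R2 n)) q) (dd Φ (iv w) q)) =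
      dd (fun q : ℝ × R2 n => g (Φ q)) (iv w) := by
    intro w
    funext q
    have h1 := (diffAt hg (Φ q)).hasFDerivAt.comp q (diffAt hG q).hasFDerivAt
    have h2 : (g ∘ fun q : ℝ × R2 n => G q.1 q.2) = fun q : ℝ × R2 n => g (Φ q) := rfl
    rw [h2] at h1
    unfold dd
    rw [h1.fderiv]
    have h3 := hee q
    unfold dd at h3
    rw [h3]
    simp only [hΩ]
    rw [hX]
    rfl
  have hQ : ContDiff ℝ ∞ (fun q : ℝ × R2 n => Ω (q.1, Φ q) (dd Φ (iv u) q) (dd Φ (iv v) q)) :=
    ((hΩs.comp (contDiff_fst.prodMk hG)).clm_apply (dd_smooth hG _)).clm_apply (dd_smooth hG _)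
  have hconst := const_line hQ x (fun r => ?_) t
  · simp only at hconst
    rw [hfd, hfd, hfd, hfd] at hconst
    have e0 : G 0 = id := funext hG0
    have e1 : Φ (0, x) = x := hG0 x
    rw [e0, fderiv_id, e1] at hconst
    exact hconst
  · rw [cartan hΩs (fun p a b => hom.anti p.2 a b) hcl hG u v (r, x), hA, hA, hΩd,
      dd_comm hgΦ (iv v) (iv u)]
    simp [ee]

end flowinv

/-- **No trapped orbits.** If there are functions `f, g` with nowhere vanishing Poisson bracket,
`g` affine at infinity, then the form is standard. -/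
theorem bracket_std {n : ℕ} {om : R2 n → Bil (R2 n)} (hom : IsSymp om) {K : Set (R2 n)}
    (hK : IsCompact K) (hout : ∀ x, x ∉ K → om x = W n) {g : R2 n → ℝ} (hg : ContDiff ℝ ∞ g)
    {ℓ : R2 n →L[ℝ] ℝ} (hℓ : ℓ ≠ 0) {c : ℝ} (hgl : ∀ x, x ∉ K → g x = ℓ x + c)
    {f : R2 n → ℝ} (hf : ContDiff ℝ ∞ f)
    (hb : ∀ x v, om x v = fderiv ℝ g x → fderiv ℝ f x v ≠ 0) :
    ∃ Φ : R2 n ≃ R2 n, ContDiff ℝ ∞ Φ ∧ ContDiff ℝ ∞ Φ.symm ∧
      ∀ x u v, om (Φ x) (fderiv ℝ Φ x u) (fderiv ℝ Φ x v) = W n u v := by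
  have hWinj : ∀ v : R2 n, W n v = 0 → v = 0 := by
    intro v hv
    by_contra h
    have h1 := nsqPos h
    rw [← omJ, ← W_apply, hv] at h1
    exact lt_irrefl _ h1
  set X : R2 n → R2 n := fun x => (om x).inverse (fderiv ℝ g x) with hXdef
  have hXe : ∀ x, om x (X x) = fderiv ℝ g x := fun x =>
    inverse_apply finrank_dual (om x) (hom.nondeg x) _
  have hg1 : ContDiff ℝ ∞ (fderiv ℝ g) := hg.fderiv_right (m := ∞) (by simp)
  have hXs : ContDiff ℝ ∞ X :=
    (inverse_smooth finrank_dual hom.smooth hom.nondeg).clm_apply hg1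
  have hgd : ∀ x, x ∉ K → fderiv ℝ g x = ℓ := by
    intro x hx
    have h1 : g =ᶠ[𝓝 x] fun y => ℓ y + c := by
      filter_upwards [hK.isClosed.isOpen_compl.mem_nhds hx] with y hy
      exact hgl y hy
    rw [h1.fderiv_eq]
    rw [fderiv_add_const, ContinuousLinearMap.fderiv]
  set c0 : R2 n := (W n).inverse ℓ with hc0
  have hWc : W n c0 = ℓ := inverse_apply finrank_dual (W n) hWinj ℓ
  have hc0ne : c0 ≠ 0 := by
    intro h
    apply hℓ
    rw [← hWc, h, map_zero]
  have hXout : ∀ x, x ∉ K → X x = c0 := by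
    intro x hx
    rw [hXdef, hc0]
    simp only
    rw [hout x hx, hgd x hx]
  obtain ⟨a, hac⟩ : ∃ a : R2 n →L[ℝ] ℝ, a c0 = 1 := SeparatingDual.exists_eq_one hc0ne
  -- a bound for `K`
  obtain ⟨R0, hR0⟩ := hK.exists_bound_of_continuousOn (f := fun x => a x) a.continuous.continuousOn
  set R : ℝ := |R0| + 1 with hRdef
  have hRpos : 0 < R := by positivity
  have hRK : ∀ x ∈ K, |a x| < R := by
    intro x hx
    have h1 := hR0 x hx
    rw [Real.norm_eq_abs] at h1
    have h2 := le_abs_self R0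
    linarith
  set Y : R2 n → R2 n := fun x => X x - c0 with hY
  have hYs : ContDiff ℝ ∞ Y := hXs.sub contDiff_const
  have hYc : HasCompactSupport Y := HasCompactSupport.intro hK fun x hx => by
    rw [hY]
    simp only
    rw [hXout x hx, sub_self]
  have hXY : ∀ x, c0 + Y x = X x := fun x => by rw [hY]; simp
  have : CompleteSpace (R2 n) := inferInstance
  obtain ⟨G, hG, hG0, hGa, hGd, -⟩ := flow_affine c0 Y hYs hYc
  have hGd' : ∀ p t, HasDerivAt (fun t => G t p) (X (G t p)) t := by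
    intro p t
    have := hGd p t
    rw [hXY] at this
    exact this
  -- the sign of the bracket
  set h : R2 n → ℝ := fun x => fderiv ℝ f x (X x) with hh
  have hf1 : ContDiff ℝ ∞ (fderiv ℝ f) := hf.fderiv_right (m := ∞) (by simp)
  have hhc : Continuous h := hf1.continuous.clm_apply hXs.continuous
  have hh0 : ∀ x, h x ≠ 0 := fun x => hb x (X x) (hXe x)
  obtain ⟨σ, hσ⟩ : ∃ σ : ℝ, ∀ x, 0 < σ * h x := by
    by_cases h1 : 0 < h 0
    · refine ⟨1, fun x => ?_⟩
      rw [one_mul]
      by_contra h2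
      obtain ⟨y, hy⟩ := mem_range_of_exists_le_of_exists_ge hhc ⟨x, not_lt.1 h2⟩ ⟨0, h1.le⟩
      exact hh0 y hy
    · refine ⟨-1, fun x => ?_⟩
      by_contra h2
      have h3 : 0 ≤ h x := by linarith
      obtain ⟨y, hy⟩ := mem_range_of_exists_le_of_exists_ge hhc ⟨0, not_lt.1 h1⟩ ⟨x, h3⟩
      exact hh0 y hy
  -- the constant `N`
  obtain ⟨N, hN⟩ := hK.exists_bound_of_continuousOn
    (f := fun x => (1 - a (X x)) / (σ * h x))
    ((Continuous.div (continuous_const.sub (a.continuous.comp hXs.continuous))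
      (continuous_const.mul hhc) fun x => (hσ x).ne').continuousOn)
  set N' : ℝ := |N| with hN'
  have hNK : ∀ x ∈ K, 1 ≤ N' * (σ * h x) + a (X x) := by
    intro x hx
    have h1 := hN x hx
    rw [Real.norm_eq_abs] at h1
    have h2 : (1 - a (X x)) / (σ * h x) ≤ N' := (le_abs_self _).trans (h1.trans (le_abs_self _))
    rw [div_le_iff₀ (hσ x)] at h2
    linarith
  -- the projection along `c0` and the cutoff
  set π : R2 n →L[ℝ] R2 n := ContinuousLinearMap.id ℝ (R2 n) - a.smulRight c0 with hπ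
  have hπa : ∀ x, π x = x - a x • c0 := fun x => by rw [hπ]; simp
  have hπc : π c0 = 0 := by rw [hπa, hac, one_smul, sub_self]
  obtain ⟨r0, hr0⟩ := hK.exists_bound_of_continuousOn (f := fun x => π x) π.continuous.continuousOn
  set χ : ContDiffBump (0 : R2 n) := ⟨|r0| + 1, |r0| + 2, by positivity, by linarith⟩ with hχ
  have hχs : ContDiff ℝ ∞ (χ : R2 n → ℝ) := χ.contDiff
  set F : R2 n → ℝ := fun x => N' * (χ (π x) * (σ * f x)) + a x with hF
  have hχπ : ContDiff ℝ ∞ (fun x => χ (π x)) := hχs.comp π.contDiff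
  have hσf : ContDiff ℝ ∞ (fun x => σ * f x) := contDiff_const.mul hf
  have hFs : ContDiff ℝ ∞ F := (contDiff_const.mul (hχπ.mul hσf)).add a.contDiff
  have hFd : ∀ x v, fderiv ℝ F x v = N' * (χ (π x) * (σ * fderiv ℝ f x v) +
      fderiv ℝ χ (π x) (π v) * (σ * f x)) + a v := by
    intro x v
    have h1 : fderiv ℝ (fun x => χ (π x)) x v = fderiv ℝ χ (π x) (π v) := by
      have e1 := (diffAt hχs (π x)).hasFDerivAt.comp x π.hasFDerivAt
      have e2 : ((χ : R2 n → ℝ) ∘ π) = fun x => χ (π x) := rfl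
      rw [e2] at e1
      rw [e1.fderiv]
      rfl
    have h2 : fderiv ℝ (fun x => σ * f x) x v = σ * fderiv ℝ f x v := by
      rw [fd_mul (diffAt contDiff_const x) (diffAt hf x)]
      simp
    rw [hF, fd_add (diffAt (contDiff_const.mul (hχπ.mul hσf)) x) (diffAt a.contDiff x),
      fd_mul (diffAt contDiff_const x) (diffAt (hχπ.mul hσf) x),
      fd_mul (diffAt hχπ x) (diffAt hσf x), h1, h2]
    simp
  have hF1 : ∀ x, 1 ≤ fderiv ℝ F x (X x) := by
    intro x
    rw [hFd]
    by_cases hx : x ∈ K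
    · have h1 : π x ∈ Metric.ball (0 : R2 n) (|r0| + 1) := by
        rw [mem_ball_zero_iff]
        have := hr0 x hx
        have h2 := le_abs_self r0
        linarith
      have h2 : χ (π x) = 1 := χ.one_of_mem_closedBall (Metric.ball_subset_closedBall h1)
      have h3 : fderiv ℝ χ (π x) = 0 := by
        have : (χ : R2 n → ℝ) =ᶠ[𝓝 (π x)] fun _ => 1 := χ.eventuallyEq_one_of_mem_ball h1
        rw [this.fderiv_eq]
        simp
      rw [h2, h3]
      have h4 := hNK x hx
      simp only [hh] at h4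
      simp only [zero_apply, zero_mul, add_zero, one_mul]
      exact h4
    · rw [hXout x hx, hπc, map_zero, hac, zero_mul, add_zero]
      have h1 := hσ x
      simp only [hh] at h1
      rw [hXout x hx] at h1
      have h2 : 0 ≤ N' * (χ (π x) * (σ * fderiv ℝ f x c0)) :=
        mul_nonneg (abs_nonneg _) (mul_nonneg χ.nonneg h1.le)
      linarith
  -- bound of `F - a` on the slab
  obtain ⟨C1, hC1⟩ := (isCompact_closedBall (0 : R2 n)
    (|r0| + 2 + (R + 1) * ‖c0‖)).exists_bound_of_continuousOn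
    (f := fun x => N' * (χ (π x) * (σ * f x))) (contDiff_const.mul (hχπ.mul hσf)).continuous.continuousOn
  have hslab : ∀ x, |a x| ≤ R + 1 → -|C1| ≤ N' * (χ (π x) * (σ * f x)) := by
    intro x hx
    by_cases h1 : π x ∈ Metric.closedBall (0 : R2 n) (|r0| + 2)
    · have h2 : x ∈ Metric.closedBall (0 : R2 n) (|r0| + 2 + (R + 1) * ‖c0‖) := by
        rw [mem_closedBall_zero_iff] at h1 ⊢
        have h3 : x = π x + a x • c0 := by rw [hπa]; simp
        calc ‖x‖ = ‖π x + a x • c0‖ := by rw [← h3]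
          _ ≤ ‖π x‖ + ‖a x • c0‖ := norm_add_le _ _
          _ = ‖π x‖ + |a x| * ‖c0‖ := by rw [norm_smul, Real.norm_eq_abs]
          _ ≤ _ := by gcongr
      have h3 := hC1 x h2
      rw [Real.norm_eq_abs] at h3
      have h4 := (abs_le.1 (h3.trans (le_abs_self C1))).1
      exact h4
    · have h2 : χ (π x) = 0 := by
        apply χ.zero_of_le_dist
        rw [Metric.mem_closedBall, not_le] at h1
        exact h1.le
      rw [h2]
      simp
  -- no backward trapped orbit
  have htrap : ∀ x, ∃ T, 0 ≤ T ∧ a (G (-T) x) ≤ -R := by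
    intro x
    by_contra hcon
    push Not at hcon
    have hmono : ∀ T, 0 ≤ T → F (G (-T) x) ≤ F x - T := by
      intro T hT
      have hd : ∀ s, HasDerivAt (fun s => F (G s x) - s) (fderiv ℝ F (G s x) (X (G s x)) - 1) s :=
        fun s => by
          have e0 : HasFDerivAt F (fderiv ℝ F (G s x)) (G s x) := (diffAt hFs (G s x)).hasFDerivAt
          have e1 : HasDerivAt (fun s => F (G s x)) (fderiv ℝ F (G s x) (X (G s x))) s :=
            HasFDerivAt.comp_hasDerivAt (f := fun s => G s x) s e0 (hGd' x s)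
          exact e1.sub (hasDerivAt_id s)
      have hm : Monotone (fun s => F (G s x) - s) :=
        monotone_of_deriv_nonneg (fun s => (hd s).differentiableAt) fun s => by
          rw [(hd s).deriv]
          linarith [hF1 (G s x)]
      have h1 := hm (show -T ≤ 0 by linarith)
      simp only [hG0, sub_zero] at h1
      linarith
    set T1 : ℝ := max 0 (F x + |C1| + R) with hT1
    have hT10 : 0 ≤ T1 := le_max_left _ _
    have hbig : ∀ T, T1 ≤ T → R + 1 < a (G (-T) x) := by
      intro T hT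
      have h1 := hmono T (hT10.trans hT)
      have h2 := hcon T (hT10.trans hT)
      have h3 : F x + |C1| + R ≤ T := (le_max_right _ _).trans hT
      by_contra h4
      have h5 : |a (G (-T) x)| ≤ R + 1 := abs_le.2 ⟨by linarith, not_lt.1 h4⟩
      have h6 := hslab _ h5
      have h7 : F (G (-T) x) = N' * (χ (π (G (-T) x)) * (σ * f (G (-T) x))) + a (G (-T) x) := rfl
      linarith
    set S : ℝ := a (G (-T1) x) with hS
    have hSpos : 0 ≤ S := by
      have := hbig T1 le_rfl
      linarith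
    have hd2 : ∀ T ∈ Ico T1 (T1 + S), HasDerivWithinAt (fun T => a (G (-T) x) + T) 0 (Ici T) T := by
      intro T hT
      have h1 : HasDerivAt (fun T : ℝ => G (-T) x) (-(X (G (-T) x))) T := by
        have h2 := (hGd' x (-T)).scomp T (hasDerivAt_neg T)
        have h3 : (-1 : ℝ) • X (G (-T) x) = -X (G (-T) x) := neg_one_smul ℝ _
        rw [h3] at h2
        exact h2
      have h2 : G (-T) x ∉ K := by
        intro h3
        have h4 := hRK _ h3
        have h5 := hbig T hT.1
        have h6 := le_abs_self (a (G (-T) x))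
        linarith
      rw [hXout _ h2] at h1
      have h3 := (a.hasFDerivAt.comp_hasDerivAt T h1).add (hasDerivAt_id T)
      have h4 : a (-c0) + 1 = 0 := by rw [map_neg, hac]; norm_num
      rw [h4] at h3
      exact h3.hasDerivWithinAt
    have hcont : ContinuousOn (fun T => a (G (-T) x) + T) (Icc T1 (T1 + S)) := by
      refine Continuous.continuousOn ?_
      have h1 : Continuous (fun T : ℝ => G (-T) x) :=
        hG.continuous.comp (continuous_neg.prodMk continuous_const)
      exact (a.continuous.comp h1).add continuous_id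
    have h1 := constant_of_has_deriv_right_zero hcont hd2 (T1 + S) ⟨by linarith, le_rfl⟩
    have h2 := hbig (T1 + S) (by linarith)
    rw [← hS] at h1
    linarith
  obtain ⟨Φ, hΦ, hΦi, hΦk⟩ := straighten c0 Y hYs hYc a hac R (fun x hx => by
    have h1 : x ∉ K := by
      intro h2
      have h3 := (abs_lt.1 (hRK x h2)).1
      linarith
    rw [hY]
    simp only
    rw [hXout x h1, sub_self]) G hG hG0 hGa hGd htrap
  refine ⟨Φ, hΦ, hΦi, ?_⟩
  intro x u v
  obtain ⟨t, h1, h2, h3⟩ := hΦk x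
  rw [h2, h3, flow_inv hom hg hXe hG hG0 hGd']
  have h4 : x - t • c0 ∉ K := by
    intro h5
    have h6 := (abs_lt.1 (hRK _ h5)).1
    linarith
  rw [hout _ h4]

end Pool.Agent.Run7.h572
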