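import Mathlib
import Pool.Agent.Run7.h572.Trap

set_option autoImplicit false

open scoped Topology
open Set

namespace Pool.Agent.Run7.h572

open Pool.Agent.W5h49.EC Pool.Agent.W71.EC

section

variable {E : Type} [NormedAddCommGroup E] [NormedSpace ℝ E]

/-- an alternating two-form as a bilinear form -/
noncomputable def tb (E : Type) [NormedAddCommGroup E] [NormedSpace ℝ E] :
    (ContinuousAlternatingMap ℝ E ℝ (Fin 2)) →L[ℝ] (E →L[ℝ] E →L[ℝ] ℝ) :=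
  ((ContinuousLinearMap.compL ℝ E (ContinuousMultilinearMap ℝ (fun _ : Fin 1 => E) ℝ) (E →L[ℝ] ℝ))
    (continuousMultilinearCurryFin1 ℝ E ℝ : _ →L[ℝ] _)).comp
  (((continuousMultilinearCurryLeftEquiv ℝ (fun _ : Fin 2 => E) ℝ : _ →L[ℝ] _)).comp
    (ContinuousAlternatingMap.toContinuousMultilinearMapCLM ℝ))

theorem tb_apply (A : ContinuousAlternatingMap ℝ E ℝ (Fin 2)) (u v : E) :
    tb E A u v = A ![u, v] := by
  show A (Fin.cons u (Fin.snoc 0 v)) = A ![u, v]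
  congr 1
  funext i
  fin_cases i <;> rfl

theorem tb_fd (A : ContinuousAlternatingMap ℝ E ℝ (Fin 2)) :
    HasFDerivAt (𝕜 := ℝ) (fun A => tb E A) (tb E) A :=
  @ContinuousLinearMap.hasFDerivAt ℝ _ (ContinuousAlternatingMap ℝ E ℝ (Fin 2)) _ _ _
    (E →L[ℝ] E →L[ℝ] ℝ) _ _ _ (tb E) A

theorem tb_fd2 {F : Type} [NormedAddCommGroup F] [NormedSpace ℝ F]
    {A : F → ContinuousAlternatingMap ℝ E ℝ (Fin 2)} (x : F) (h : DifferentiableAt ℝ A x) (v : F) :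
    fderiv ℝ (fun x => tb E (A x)) x v = tb E (fderiv ℝ A x v) := by
  have h1 := @HasFDerivAt.comp ℝ _ F _ _ (ContinuousAlternatingMap ℝ E ℝ (Fin 2)) _ _
    (E →L[ℝ] E →L[ℝ] ℝ) _ _ A (fderiv ℝ A x) x (fun A => tb E A) (tb E) (tb_fd (A x)) h.hasFDerivAt
  have h2 := h1.fderiv
  have h3 : ((fun A => tb E A) ∘ A) = fun x => tb E (A x) := rfl
  rw [h3] at h2
  rw [h2]
  rfl

theorem alt_swap (A : ContinuousAlternatingMap ℝ E ℝ (Fin 2)) (u v : E) :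
    A ![u, v] = - A ![v, u] := by
  have h := A.toAlternatingMap.map_swap ![v, u] (show (0 : Fin 2) ≠ 1 by decide)
  have h2 : (![v, u] ∘ Equiv.swap (0 : Fin 2) 1 : Fin 2 → E) = ![u, v] := by
    funext i
    fin_cases i <;> simp
  rw [h2] at h
  exact h

end

variable {n : ℕ}

theorem isSymp_of {om : R2 n → ContinuousAlternatingMap ℝ (R2 n) ℝ (Fin 2)}
    (hs : ContDiff ℝ ((⊤ : ℕ∞) : WithTop ℕ∞) om)
    (hc : ∀ x u v w : R2 n,
      fderiv ℝ om x u ![v, w] - fderiv ℝ om x v ![u, w] + fderiv ℝ om x w ![u, v] = 0)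
    (hn : ∀ x v : R2 n, v ≠ 0 → ∃ w, om x ![v, w] ≠ 0) :
    IsSymp (fun x => tb (R2 n) (om x)) := by
  have hd : ∀ x u, fderiv ℝ (fun x => tb (R2 n) (om x)) x u = tb (R2 n) (fderiv ℝ om x u) :=
    fun x u => tb_fd2 x (diffAt hs x) u
  refine ⟨by fun_prop, ?_, ?_, ?_⟩
  · intro x u v
    rw [tb_apply, tb_apply]
    exact alt_swap _ _ _
  · intro x u v w
    rw [hd, hd, hd, tb_apply, tb_apply, tb_apply]
    exact hc x u v w
  · intro x v hv
    by_contra h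
    obtain ⟨w, hw⟩ := hn x v h
    apply hw
    rw [← tb_apply, hv]
    rfl

theorem out_of {om : R2 n → ContinuousAlternatingMap ℝ (R2 n) ℝ (Fin 2)} {x : R2 n}
    (h : ∀ u v : R2 n, om x ![u, v] = ∑ i : Fin n, (u.1 i * v.2 i - v.1 i * u.2 i)) :
    tb (R2 n) (om x) = W n := by
  refine ContinuousLinearMap.ext fun u => ContinuousLinearMap.ext fun v => ?_
  rw [tb_apply, h, W_apply]
  unfold omega
  exact Finset.sum_congr rfl fun i _ => by ring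

/-- from `Φ^* om = om_0` to `(Φ⁻¹)^* om_0 = om` -/
theorem concl {om : R2 n → ContinuousAlternatingMap ℝ (R2 n) ℝ (Fin 2)} {Φ : R2 n ≃ R2 n}
    (h1 : ContDiff ℝ ((⊤ : ℕ∞) : WithTop ℕ∞) Φ) (h2 : ContDiff ℝ ((⊤ : ℕ∞) : WithTop ℕ∞) Φ.symm)
    (h3 : ∀ x u v, tb (R2 n) (om (Φ x)) (fderiv ℝ Φ x u) (fderiv ℝ Φ x v) = W n u v) :
    ∃ φ : R2 n ≃ R2 n,
      ContDiff ℝ ((⊤ : ℕ∞) : WithTop ℕ∞) (fun y => φ y) ∧
      ContDiff ℝ ((⊤ : ℕ∞) : WithTop ℕ∞) (fun y => φ.symm y) ∧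
      ∀ x u v : R2 n,
        ∑ i : Fin n, ((fderiv ℝ (fun y => φ y) x u).1 i * (fderiv ℝ (fun y => φ y) x v).2 i
            - (fderiv ℝ (fun y => φ y) x v).1 i * (fderiv ℝ (fun y => φ y) x u).2 i)
          = om x ![u, v] := by
  refine ⟨Φ.symm, h2, h1, ?_⟩
  intro x u v
  have e1 := inv_left h1 h2 x u
  have e2 := inv_left h1 h2 x v
  have e3 := h3 (Φ.symm x) (fderiv ℝ Φ.symm x u) (fderiv ℝ Φ.symm x v)
  rw [e1, e2, Φ.apply_symm_apply, tb_apply, W_apply] at e3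
  rw [e3]
  unfold omega
  exact Finset.sum_congr rfl fun i _ => by ring

end Pool.Agent.Run7.h572
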