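import Mathlib

/-!
# Symplectic forms on `ℝ²ⁿ` which are standard at infinity: definitions
-/

set_option autoImplicit false

namespace Pool.Agent.Run7.h572.S

/-- The space `ℝ²ⁿ` with coordinates `(x, y)`, `x, y ∈ ℝⁿ`. -/
abbrev Space (n : ℕ) : Type := (Fin n → ℝ) × (Fin n → ℝ)

/-- The standard symplectic form `ω₀ = ∑ dx_i ∧ dy_i` of `ℝ²ⁿ`, as a constant bilinear form. -/
def std {n : ℕ} (u v : Space n) : ℝ := ∑ i : Fin n, (u.1 i * v.2 i - v.1 i * u.2 i)

section general

variable {E : Type} [NormedAddCommGroup E] [NormedSpace ℝ E]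

/-- Fields of alternating bilinear forms on the vector space `E`. -/
abbrev TwoForm (E : Type) [NormedAddCommGroup E] [NormedSpace ℝ E] : Type :=
  E → ContinuousAlternatingMap ℝ E ℝ (Fin 2)

/-- The form `ω` is smooth. -/
def IsSmoothForm (ω : TwoForm E) : Prop := ContDiff ℝ ((⊤ : ℕ∞) : WithTop ℕ∞) ω

/-- The directional derivative of the form `ω` at `x` in the direction `u`. -/
noncomputable def along (ω : TwoForm E) (x u : E) : ContinuousAlternatingMap ℝ E ℝ (Fin 2) :=
  fderiv ℝ ω x u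

/-- The form `ω` is closed: `dω = 0`. -/
def IsClosedForm (ω : TwoForm E) : Prop :=
  ∀ x u v w : E, along ω x u ![v, w] - along ω x v ![u, w] + along ω x w ![u, v] = 0

/-- The form `ω` is nondegenerate at every point. -/
def IsNondegenerate (ω : TwoForm E) : Prop := ∀ x v : E, v ≠ 0 → ∃ w, ω x ![v, w] ≠ 0

/-- `ω` is a symplectic form: smooth, closed and nondegenerate at every point. -/
structure IsSymplectic (ω : TwoForm E) : Prop where
  smooth : IsSmoothForm ω
  closed : IsClosedForm ω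
  nondegenerate : IsNondegenerate ω

/-- The form `ω` is equal to the constant form `σ` outside a compact set. -/
def StandardAtInfinity (σ : E → E → ℝ) (ω : TwoForm E) : Prop :=
  ∃ K : Set E, IsCompact K ∧ ∀ x, x ∉ K → ∀ u v : E, ω x ![u, v] = σ u v

/-- The map `φ : E → E` is smooth. -/
def IsSmoothMap (φ : E → E) : Prop := ContDiff ℝ ((⊤ : ℕ∞) : WithTop ℕ∞) φ

/-- The function `f : E → ℝ` is smooth. -/
def IsSmoothFun (f : E → ℝ) : Prop := ContDiff ℝ ((⊤ : ℕ∞) : WithTop ℕ∞) f

/-- `φ^* σ = ω` for the constant form `σ`. -/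
def PullsBackTo (φ : E → E) (σ : E → E → ℝ) (ω : TwoForm E) : Prop :=
  ∀ x u v : E, σ (fderiv ℝ φ x u) (fderiv ℝ φ x v) = ω x ![u, v]

/-- `(E, ω)` is symplectomorphic to `(E, σ)`: there is a diffeomorphism `φ` of `E` with
`φ^* σ = ω`. -/
def IsStandard (σ : E → E → ℝ) (ω : TwoForm E) : Prop :=
  ∃ φ : E ≃ E, IsSmoothMap φ ∧ IsSmoothMap φ.symm ∧ PullsBackTo φ σ ω

end general

end Pool.Agent.Run7.h572.S
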